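import Mathlib
import Pool.Agent.Lib.helper12.GWB

set_option autoImplicit false

namespace Pool.Agent.Results.MP_46e535_pr.Full
open Pool.Agent.Lib.helper12.GW MeasureTheory Filter Set Finsupp
open scoped ENNReal

abbrev X := ℤ × ℕ

noncomputable def g : X → (X →₀ ℕ)
  | (k, 0) => single (k + 1, 0) 1 + single (k - 1, 0) 1
  | (k, j + 1) => single (k, j) 1

noncomputable def u (x : X) : X →₀ ℕ := single (x.1, x.2 + 1) 2

lemma ne (x : X) : u x ≠ g x := fun h => by
  have := DFunLike.congr_fun h (x.1, x.2 + 1)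
  rcases x with ⟨k, _ | j⟩ <;> simp [u, g, single_apply] at this
  split_ifs at this; omega

noncomputable def μ (x : X) : PMF (X →₀ ℕ) := PMF.ofFinset
  (fun f => if f = g x then 1 / 16 else if f = u x then 15 / 16 else 0) {g x, u x} (by
    rw [Finset.sum_pair (ne x).symm, if_pos rfl, if_neg (ne x), if_pos rfl, ENNReal.div_add_div_same,
      ENNReal.div_eq_one_iff] <;> norm_num) (by simp +contextual)

lemma G_eq (s : X → ℝ) (x : X) :
    G μ s x = 1 / 16 * (g x).prod (fun y n => s y ^ n) + 15 / 16 * s (x.1, x.2 + 1) ^ 2 := by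
  rw [G, tsum_eq_sum (s := {g x, u x}) (by simp +contextual [μ]), Finset.sum_pair (ne x).symm]
  simp only [μ, PMF.ofFinset_apply, if_neg (ne x)]
  simp [u]

lemma bd (a n : ℕ) (x : X) :
    P μ x (No {y | y.2 ≤ a} n x)ᶜ ≤ .ofReal ((23 / 32) ^ n * (4 ^ a / 4 ^ x.2)) := by
  rw [ENNReal.le_ofReal_iff_toReal_le (measure_ne_top _ _) (by positivity), ← Measure.real,
    probReal_compl_eq_one_sub (m_No _ _ _), sub_le_comm]
  induction n generalizing x with
  | zero =>
    by_cases e : x.2 ≤ a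
    · have : (1 : ℝ) ≤ 4 ^ a / 4 ^ x.2 := (one_le_div (by positivity)).2 (by gcongr; norm_num)
      linarith [measureReal_nonneg (μ := P μ x) (s := No {y | y.2 ≤ a} 0 x)]
    · rw [show No _ 0 x = univ from eq_univ_of_forall fun ω w b _ c => e (by
        simpa [List.length_eq_zero_iff.1 b, ty] using c), probReal_univ]
      simp [div_nonneg]
  | succ n ih =>
    have m := P_mem (μ := μ) (No {y | y.2 ≤ a} n)
    rw [no_succ, dec (m_No _ n)]
    generalize hs : (fun y => (P μ y).real (No {y | y.2 ≤ a} n y)) = s at m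
    rw [G_eq, pow_succ]
    replace ih : ∀ y : X, 1 - (23 / 32) ^ n * (4 ^ a / 4 ^ y.2) ≤ s y := fun y => hs ▸ ih y
    have a1 := ih (x.1, x.2 + 1)
    have a2 := sq_nonneg (s (x.1, x.2 + 1) - 1)
    have a3 : (0 : ℝ) ≤ (23 / 32) ^ n * (4 ^ a / 4 ^ x.2) := by positivity
    rw [pow_succ, ← div_div] at a1
    rcases x with ⟨k, _ | j⟩
    · have b1 := ih (k + 1, 0)
      have b2 := ih (k - 1, 0)
      have b3 := mul_nonneg (sub_nonneg.2 (m.2 (k + 1, 0))) (sub_nonneg.2 (m.2 (k - 1, 0)))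
      rw [g, prod_add_index' (by simp) (by simp [pow_add])]
      simp only [prod_single_index, pow_zero, pow_one, Pi.one_apply] at *
      nlinarith
    · have b1 := ih (k, j)
      rw [show (4 : ℝ) ^ a / 4 ^ j = 4 * (4 ^ a / 4 ^ (j + 1)) by field_simp; ring] at b1
      simp only [g, prod_single_index, pow_zero, pow_one] at *
      nlinarith

lemma bdd (x : X) : ∀ᵐ ω ∂P μ x, ∀ a, ω ∈ Ex {y | y.2 ≤ a} x := ae_all_iff.2 fun a => by
  have s := ((summable_geometric_of_lt_one (r := 23 / 32) (by norm_num) (by norm_num)).mul_right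
    ((4 : ℝ) ^ a / 4 ^ x.2)).tsum_ofReal_ne_top
  exact (ae_eventually_notMem (ne_top_of_le_ne_top s
    (ENNReal.tsum_le_tsum fun n => bd a n x))).mono fun ω h => by simpa [Ex] using h

def Good (x : X) (ω : Om X) : Prop := ∀ w, ω w = g (ty x w) ∨ ω w = u (ty x w)

lemma good (x : X) : ∀ᵐ ω ∂P μ x, Good x ω := ae_all_iff.2 fun w => by
  refine ae_of_ae_map (f := fun ω : Om X => ω w) (measurable_pi_apply w).aemeasurable
    (p := fun f => f = g (ty x w) ∨ f = u (ty x w)) ?_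
  rw [P, Measure.infinitePi_map_eval, ae_iff,
    PMF.toMeasure_apply_eq_zero_iff _ MeasurableSpace.measurableSet_top, disjoint_left]
  intro f a b
  simp only [mem_ofPred_eq, not_or] at b
  simp [μ, b] at a

lemma kid {x : X} {ω : Om X} (h : Good x ω) : (∃ y, 0 < ω [] y) ∧
    ∀ y, 0 < ω [] y → y.2 ≤ x.2 + 1 ∧ (x.2 ≠ 0 → y.1 = x.1) := by
  rcases h [] with e | e <;> rw [e]
  · rcases x with ⟨k, _ | j⟩
    · refine ⟨⟨(k + 1, 0), by simp [g, ty]⟩, fun y h => ?_⟩
      simp only [g, ty, Finsupp.add_apply, single_apply] at h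
      split_ifs at h with a b c <;> simp_all [Prod.ext_iff, eq_comm]
    · refine ⟨⟨(k, j), by simp [g, ty]⟩, fun y h => ?_⟩
      simp only [g, ty, single_apply] at h
      split_ifs at h with a <;> simp_all [Prod.ext_iff, eq_comm]; omega
  · refine ⟨⟨_, by rw [u, single_eq_same]; simp⟩, fun y h => ?_⟩
    simp only [u, ty, single_apply] at h
    split_ifs at h with a <;> simp_all [Prod.ext_iff, eq_comm]

lemma ex_alive (n : ℕ) : ∀ x ω, Good x ω → ∃ w : List (X × ℕ), w.length = n ∧ alive w ω := by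
  induction n with
  | zero => exact fun _ _ _ => ⟨[], rfl, trivial⟩
  | succ n ih =>
    intro x ω h
    obtain ⟨y, e⟩ := (kid h).1
    obtain ⟨w, a, b⟩ := ih y (sh (y, 0) ω) fun w => h ((y, 0) :: w)
    exact ⟨(y, 0) :: w, by simp [a], e, b⟩

lemma ivt (a : ℕ) : ∀ (w : List (X × ℕ)) x ω, Good x ω → alive w ω → x.2 ≤ a → a ≤ (ty x w).2 →
    ∃ v, alive v ω ∧ (ty x v).2 = a ∧ a - x.2 ≤ v.length
  | [], x, _, _, _, h, k => ⟨[], trivial, le_antisymm h k, by simpa [ty] using Nat.sub_eq_zero_of_le k⟩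
  | b :: w, x, ω, g, l, h, k => by
    rcases h.eq_or_lt with rfl | h
    · exact ⟨[], trivial, rfl, by simp⟩
    have := ((kid g).2 b.1 (Nat.zero_lt_of_lt l.1)).1
    obtain ⟨v, a1, a2, a3⟩ := ivt a w b.1 (sh b ω) (fun w => g (b :: w)) l.2 (by omega) k
    exact ⟨b :: v, ⟨l.1, a1⟩, a2, by simp; omega⟩

lemma stay : ∀ (w : List (X × ℕ)) x ω, Good x ω → (∀ n, ω ∈ No {y | y.2 ≤ 0} n x) → alive w ω →
    (ty x w).1 = x.1
  | [], _, _, _, _, _ => rfl
  | b :: w, x, ω, g, h, l => (stay w b.1 (sh b ω) (fun w => g (b :: w))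
      (fun n => (no_succ _ n x ▸ h (n + 1) :) b l.1) l.2).trans
      (((kid g).2 b.1 (Nat.zero_lt_of_lt l.1)).2 fun e => h 0 [] rfl trivial e.le)

lemma q_eq (A : Set X) (k : ℤ) : (BddAbove {j | (k, j) ∈ A} → 2 / 3 ≤ q μ A (k, 2)) ∧
    (¬ BddAbove {j | (k, j) ∈ A} → q μ A (k, 2) ≤ 1 / 3) := by
  have e : (P μ (k, 2)).real (⋃ n, (No {y | y.2 ≤ 0} n (k, 2))ᶜ) ≤ 1 / 3 := by
    refine ENNReal.toReal_le_of_le_ofReal (by norm_num) ((measure_iUnion_le _).trans
      ((ENNReal.tsum_le_tsum fun n => bd 0 n _).trans ?_))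
    have s := (hasSum_geometric_of_lt_one (r := 23 / 32) (by norm_num) (by norm_num)).mul_right
      ((4 : ℝ) ^ 0 / 4 ^ 2)
    rw [← ENNReal.ofReal_tsum_of_nonneg (fun _ => by positivity) s.summable, s.tsum_eq]
    exact ENNReal.ofReal_le_ofReal (by norm_num)
  have m : ∀ E : Set (Om X), (∀ ω, Good (k, 2) ω → (∀ a, ω ∈ Ex {y | y.2 ≤ a} (k, 2)) →
      (∀ n, ω ∈ No {y | y.2 ≤ 0} n (k, 2)) → ω ∉ E) → (P μ (k, 2)).real E ≤ 1 / 3 := fun E h => by
    refine (ENNReal.toReal_mono (measure_ne_top _ _) (measure_mono_ae ?_)).trans e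
    filter_upwards [good (k, 2), bdd (k, 2)] with ω a b c
    by_contra d
    exact h ω a b (by simpa using (show ω ∉ ⋃ n, (No {y | y.2 ≤ 0} n (k, 2))ᶜ from d)) c
  refine ⟨fun ⟨a, h⟩ => ?_, fun h => m _ fun ω g b c d => ?_⟩
  · have := m (Ex A (k, 2))ᶜ fun ω g b c d => d ((b a).mono fun n e w w1 w2 w3 =>
      e w w1 w2 (h ((Prod.ext (stay w _ ω g c w2) rfl : ty (k, 2) w = (k, (ty (k, 2) w).2)) ▸ w3 :)))
    rw [probReal_compl_eq_one_sub (m_Ex _ _)] at this
    rw [q]; linarith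
  · obtain ⟨N, hN⟩ := eventually_atTop.1 d
    obtain ⟨a, a1, a2⟩ := not_bddAbove_iff.1 h (2 + N)
    obtain ⟨n, hn⟩ := (b a).exists
    obtain ⟨w, w1, w2⟩ := ex_alive n _ ω g
    obtain ⟨v, v1, v2, v3⟩ := ivt a w _ ω g w2 (by simp; omega) (not_le.1 (hn w w1 w2)).le
    exact hN _ (by simp at v3; omega) v rfl v1
      ((Prod.ext (stay v _ ω g c v1) v2 : ty (k, 2) v = (k, a)) ▸ a1)

theorem result : ∃ (X : Type) (_ : Countable X) (μ : X → PMF (X →₀ ℕ)),
    (∀ x y, Relation.ReflTransGen (fun a b => ∃ f, μ a f ≠ 0 ∧ f b ≠ 0) x y) ∧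
    (range (q μ)).Infinite ∧ ¬ (S μ \ range (q μ)).Countable := by
  have U : ∀ x : X, ∃ f, μ x f ≠ 0 ∧ f (x.1, x.2 + 1) ≠ 0 := fun x =>
    ⟨u x, by simp [μ, ne x], by simp [u]⟩
  have D : ∀ x y : X, g x y ≠ 0 → ∃ f, μ x f ≠ 0 ∧ f y ≠ 0 := fun x y h => ⟨g x, by simp [μ], h⟩
  refine ⟨X, inferInstance, μ, fun ⟨k, i⟩ ⟨l, j⟩ => ?_,
    infinite_of_injective_forall_mem (f := fun k : ℤ => q μ {y | y.1 = k}) (fun k l h => ?_)
      fun _ => mem_range_self _, fun h => ?_⟩
  · induction i with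
    | succ i ih => exact .head (D _ (k, i) (by simp [g])) ih
    | zero =>
      induction j with
      | succ j ih => exact ih.tail (U (l, j))
      | zero =>
        induction l using Int.inductionOn' (b := k) with
        | zero => rfl
        | succ k _ ih => exact ih.tail (D _ _ (by simp [g]))
        | pred k _ ih => exact ih.tail (D _ _ (by simp [g]))
  · by_contra e
    have a := (q_eq {y | y.1 = k} k).2 (by simp)
    have b := (q_eq {y | y.1 = l} k).1 (by simp [e])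
    linarith [congrFun h (k, 2)]
  · have c := card (T := S μ \ range (q μ)) (x := (0, 2)) (a := 1 / 3) (b := 2 / 3) (by norm_num)
      fun c hc => by
        have e : qt μ (0, 2) = 1 := (ENNReal.toReal_eq_one_iff _).2
          ((mem_ae_iff_prob_eq_one (.iInter fun _ => m_Ex _ _)).1 ((bdd _).mono fun ω h =>
            mem_iInter.2 fun y => (h y.2).mono fun n e w a b c => e w a b (by rw [c]; simp)))
        obtain ⟨z, z1, z2, z3, -⟩ := key (q_fix univ).1.1 (q_le qt_fix (by simp)) qt_fix.1.2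
          (q_fix univ).2.le qt_fix.2.le univ (mem_univ (0, 2))
          (((q_eq univ 0).2 (by simp)).trans_lt hc.1) fun F _ _ =>
            lt_of_lt_of_le (by linarith [hc.2]) (qt_le (μ := μ) F (0, 2))
        refine ⟨z, ⟨⟨⟨z1.1, z1.2.trans qt_fix.1.2⟩, funext fun y => z3 y trivial⟩, ?_⟩, z2⟩
        rintro ⟨A, rfl⟩
        by_cases b : BddAbove {j | ((0 : ℤ), j) ∈ A}
        · linarith [(q_eq A 0).1 b, hc.2]
        · linarith [(q_eq A 0).2 b, hc.1]
    exact absurd (c ▸ Cardinal.le_aleph0_iff_set_countable.2 h) Cardinal.aleph0_lt_continuum.not_ge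

end Pool.Agent.Results.MP_46e535_pr.Full
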